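import Pool.Agent.helper62.RS.SpecG
import Pool.Agent.helper62.QU.All

/-!
# MP_07c750, rare scars: row GLI (left invariance of the measure)
-/

open scoped MatrixGroups ContDiff Topology UpperHalfPlane
open UpperHalfPlane MeasureTheory Filter Set

namespace Pool.Agent.RS

theorem GLI_per (F : ℝ → ENNReal) (T : ℝ) (hT : 0 < T) (hF : ∀ x, F (x + T) = F x) (α : ℝ) :
    ∫⁻ θ in Ioc 0 T, F (α + θ) = ∫⁻ θ in Ioc 0 T, F θ := by
  have h1 : ∫⁻ θ in Ioc 0 T, F (α + θ) = ∫⁻ θ in Ioc α (α + T), F θ := by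
    have := (measurePreserving_add_left (volume : Measure ℝ) α).setLIntegral_comp_preimage_emb
      (measurableEmbedding_addLeft α) F (Ioc α (α + T))
    rw [Set.preimage_const_add_Ioc, sub_self, add_sub_cancel_left] at this
    exact this
  have h2 := isAddFundamentalDomain_Ioc hT α (volume : Measure ℝ)
  have h3 := isAddFundamentalDomain_Ioc hT 0 (volume : Measure ℝ)
  rw [zero_add] at h3
  rw [h1]
  refine h2.setLIntegral_eq h3 F ?_
  rintro ⟨_, n, rfl⟩ x
  have hp : Function.Periodic F T := hF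
  have := hp.int_mul n x
  rw [← this]
  change F (n • T + x) = F (x + n * T)
  rw [zsmul_eq_mul, add_comm]

theorem GLI_k (hGLC : GLC_stmt) (h : SL(2, ℝ)) (z : ℍ) :
    ∃ α : ℝ, ∀ θ, h * (toSL2R z * kM θ) = toSL2R (h • z) * kM (α + θ) := by
  obtain ⟨-, -, -, -, -, -, -, -, -, -, -, -, -, hkadd, -, -, hk, -⟩ := hGLC
  obtain ⟨α, hα⟩ := hk ((toSL2R (h • z))⁻¹ * h * toSL2R z) (by
    rw [mul_smul, mul_smul, toSL2R_smul_I, inv_smul_eq_iff, toSL2R_smul_I])
  refine ⟨α, fun θ => ?_⟩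
  rw [hkadd, ← hα]
  group

theorem GLI_per2 (hGLC : GLC_stmt) (f : SL(2, ℝ) → ENNReal) (h : SL(2, ℝ)) (z : ℍ) :
    ∫⁻ θ in Ioc 0 (2 * Real.pi), f (h * (toSL2R z * kM θ)) =
      ∫⁻ θ in Ioc 0 (2 * Real.pi), f (toSL2R (h • z) * kM θ) := by
  obtain ⟨α, hα⟩ := GLI_k hGLC h z
  simp only [hα]
  refine GLI_per (fun θ => f (toSL2R (h • z) * kM θ)) (2 * Real.pi) (by positivity) (fun x => ?_) α
  have hper : ∀ θ, kM (θ + 2 * Real.pi) = kM θ := hGLC.2.2.2.2.2.2.2.2.2.2.2.2.2.2.1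
  simp only [hper]

theorem GLI (hGLC : GLC_stmt) (hGMG : GMG_stmt) : GLI_stmt := by
  intro h
  have hm : Measurable (fun g : SL(2, ℝ) => h * g) := (continuous_const.mul continuous_id).measurable
  have hlf := hGMG.2.2.2.1
  refine Measure.ext fun A hA => ?_
  rw [Measure.map_apply hm hA, ← lintegral_indicator_one hA, ← lintegral_indicator_one (hm hA)]
  have hf : Measurable (A.indicator (1 : SL(2, ℝ) → ENNReal)) := measurable_one.indicator hA
  have hfh : Measurable (((fun g : SL(2, ℝ) => h * g) ⁻¹' A).indicator (1 : SL(2, ℝ) → ENNReal)) :=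
    measurable_one.indicator (hm hA)
  rw [hlf _ hf, hlf _ hfh]
  have e1 : ∀ g : SL(2, ℝ), ((fun g : SL(2, ℝ) => h * g) ⁻¹' A).indicator (1 : SL(2, ℝ) → ENNReal) g =
      A.indicator (1 : SL(2, ℝ) → ENNReal) (h * g) := by
    intro g
    by_cases hg : h * g ∈ A
    · rw [indicator_of_mem (show g ∈ (fun g : SL(2, ℝ) => h * g) ⁻¹' A from hg), indicator_of_mem hg]
      rfl
    · rw [indicator_of_notMem (show g ∉ (fun g : SL(2, ℝ) => h * g) ⁻¹' A from hg), indicator_of_notMem hg]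
  simp only [e1]
  simp only [GLI_per2 hGLC (A.indicator (1 : SL(2, ℝ) → ENNReal)) h]
  have : SMulInvariantMeasure SL(2, ℝ) ℍ (volume : Measure ℍ) := QU.A_INV.1
  have hmp : MeasurePreserving (fun z : ℍ => h • z) (volume : Measure ℍ) volume :=
    measurePreserving_smul h volume
  have hemb : MeasurableEmbedding (fun z : ℍ => h • z) := measurableEmbedding_const_smul h
  exact hmp.lintegral_comp_emb hemb (fun z => (ENNReal.ofReal (2 * Real.pi))⁻¹ *
    ∫⁻ θ in Ioc 0 (2 * Real.pi), A.indicator (1 : SL(2, ℝ) → ENNReal) (toSL2R z * kM θ))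

end Pool.Agent.RS
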