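import Pool.Agent.helper62.RS.SpecG
import Pool.Agent.helper62.QU.All

set_option autoImplicit false

open scoped MatrixGroups ContDiff Topology UpperHalfPlane
open UpperHalfPlane MeasureTheory Filter Set

namespace Pool.Agent.RS

theorem GWB (hGLC : GLC_stmt) (hGBD : GBD_stmt) : GWB_stmt := by
  intro Γ f φ hΓ hf hfc hφ
  obtain ⟨hlc, hsc, -⟩ := hGLC
  haveI : LocallyCompactSpace SL(2, ℝ) := hlc
  haveI : SecondCountableTopology SL(2, ℝ) := hsc
  obtain ⟨hφc, hφi⟩ := hφ
  refine ⟨⟨?_, ?_⟩, ?_, ?_⟩
  · have hc : Continuous (Function.uncurry fun (g : SL(2, ℝ)) (z : ℍ) => f z * φ (g • z)) :=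
      (hf.comp continuous_snd).mul (hφc.comp continuous_smul)
    have h := continuous_parametric_integral_of_continuous (μ := (volume : Measure ℍ)) hc hfc
    have he : Wf f φ = fun g => ∫ z in tsupport f, f z * φ (g • z) := by
      funext g
      unfold Wf
      refine (setIntegral_eq_integral_of_forall_compl_eq_zero fun z hz => ?_).symm
      rw [image_eq_zero_of_notMem_tsupport hz, zero_mul]
    rw [he]
    exact h
  · intro γ g
    unfold Wf
    refine integral_congr_ae (Eventually.of_forall fun z => ?_)
    show f z * φ (((γ : SL(2, ℝ)) * g) • z) = f z * φ (g • z)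
    rw [mul_smul]
    exact congrArg _ (hφi γ (g • z))
  · intro g h
    unfold Wf
    have h1 := (QU.A_INV).2.2.2.1 ℂ h (fun z => f (h⁻¹ • z) * φ (g • z))
    rw [← h1]
    refine integral_congr_ae (Eventually.of_forall fun z => ?_)
    show f z * φ ((g * h) • z) = f (h⁻¹ • h • z) * φ (g • h • z)
    rw [mul_smul, inv_smul_smul]
  · intro g
    unfold Wf
    rw [← integral_conj]
    refine integral_congr_ae (Eventually.of_forall fun z => ?_)
    simp

end Pool.Agent.RS
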